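import Pool.Agent.Y405.PM.Pol

/-!
# Few polynomial maps of bounded degree in a space of small rank

The argument of Pool.Agent.H161R4 (functions on `F_2^n`) for maps from an arbitrary finite abelian
group to `ℤ / m`.
-/

set_option autoImplicit false
set_option linter.unusedSectionVars false

namespace Pool.Agent.Y405.PM

open Finset Module

/-- pairs in the same fibre (Cauchy–Schwarz) -/
theorem pairs {α β : Type} [DecidableEq β] (Q : Finset α) (g : α → β) (N : ℕ)
    (h : (Q.image g).card ≤ N) :
    Q.card ^ 2 ≤ N * ∑ f' ∈ Q, (Q.filter (fun f => g f = g f')).card := by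
  have h1 : Q.card = ∑ b ∈ Q.image g, (Q.filter (fun f => g f = b)).card := by
    rw [Finset.card_eq_sum_card_image g Q]
  have h2 : ∑ f' ∈ Q, (Q.filter (fun f => g f = g f')).card =
      ∑ b ∈ Q.image g, (Q.filter (fun f => g f = b)).card ^ 2 := by
    have := Finset.sum_comp (s := Q) (fun b => (Q.filter (fun f => g f = b)).card) g
    rw [this]
    refine Finset.sum_congr rfl fun b _ => ?_
    rw [smul_eq_mul, sq]
  rw [h2]
  calc Q.card ^ 2 = (∑ b ∈ Q.image g, (Q.filter (fun f => g f = b)).card) ^ 2 := by rw [← h1]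
    _ ≤ (Q.image g).card * ∑ b ∈ Q.image g, (Q.filter (fun f => g f = b)).card ^ 2 :=
        sq_sum_le_card_mul_sum_sq
    _ ≤ N * ∑ b ∈ Q.image g, (Q.filter (fun f => g f = b)).card ^ 2 :=
        Nat.mul_le_mul_right _ h

section general

variable {A C : Type} [AddCommGroup A] [Fintype A] [DecidableEq A] [AddCommGroup C] [DecidableEq C]

/-- common differences -/
def per (f g : A → C) : Finset A := Finset.univ.filter (fun a => D a f = D a g)

/-- the group of the periods -/
def perS (g : A → C) : AddSubgroup A where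
  carrier := {a | ∀ x, g (x + a) = g x}
  add_mem' := by
    intro a b ha hb x
    rw [← add_assoc, hb, ha]
  zero_mem' := by
    intro x
    rw [add_zero]
  neg_mem' := by
    intro a ha x
    have h := ha (x + -a)
    rw [neg_add_cancel_right] at h
    exact h.symm

theorem mem_perS {g : A → C} {a : A} : a ∈ perS g ↔ ∀ x, g (x + a) = g x := Iff.rfl

theorem mem_per {f g : A → C} {a : A} : a ∈ per f g ↔ a ∈ perS (f - g) := by
  unfold per
  rw [Finset.mem_filter, mem_perS]
  constructor
  · rintro ⟨_, h⟩ x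
    have h1 := congrFun h x
    simp only [D] at h1
    simp only [Pi.sub_apply]
    rw [sub_eq_sub_iff_add_eq_add] at h1 ⊢
    rw [add_comm (f x), h1, add_comm]
  · intro h
    refine ⟨Finset.mem_univ _, ?_⟩
    funext x
    have h1 := h x
    simp only [Pi.sub_apply] at h1
    simp only [D]
    rw [sub_eq_sub_iff_add_eq_add] at h1 ⊢
    rw [h1, add_comm]

theorem card_per (f g : A → C) : Nat.card (perS (f - g)) = (per f g).card :=
  Nat.subtype_card _ fun _ => mem_per

theorem centre (Q : Finset (A → C)) (hQ : Q.Nonempty) (N : ℕ)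
    (h : ∀ a, (Q.image (D a)).card ≤ N) :
    ∃ f₀ ∈ Q, Fintype.card A * Q.card ≤ N * ∑ f ∈ Q, (per f f₀).card := by
  classical
  have h1 : Fintype.card A * Q.card ^ 2 ≤ N * ∑ f' ∈ Q, ∑ f ∈ Q, (per f f').card := by
    calc Fintype.card A * Q.card ^ 2 = ∑ _a : A, Q.card ^ 2 := by
          rw [Finset.sum_const, Finset.card_univ, smul_eq_mul]
      _ ≤ ∑ a : A, N * ∑ f' ∈ Q, (Q.filter (fun f => D a f = D a f')).card :=
          Finset.sum_le_sum fun a _ => pairs Q (D a) N (h a)
      _ = N * ∑ f' ∈ Q, ∑ f ∈ Q, (per f f').card := by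
          rw [← Finset.mul_sum, Finset.sum_comm]
          congr 1
          refine Finset.sum_congr rfl fun f' _ => ?_
          simp only [per, Finset.card_filter]
          rw [Finset.sum_comm]
  by_contra hno
  push Not at hno
  have h2 : N * ∑ f' ∈ Q, ∑ f ∈ Q, (per f f').card < Fintype.card A * Q.card ^ 2 := by
    rw [Finset.mul_sum]
    calc ∑ f' ∈ Q, N * ∑ f ∈ Q, (per f f').card < ∑ _f' ∈ Q, Fintype.card A * Q.card :=
          Finset.sum_lt_sum_of_nonempty hQ fun f' hf' => hno f' hf'
      _ = Fintype.card A * Q.card ^ 2 := by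
          rw [Finset.sum_const, smul_eq_mul]; ring
  omega

theorem popular (Q : Finset (A → C)) (hQ : Q.Nonempty) (N : ℕ)
    (h : ∀ a, (Q.image (D a)).card ≤ N) :
    ∃ f₀ ∈ Q, Q.card ≤ 2 * N * (Q.filter (fun f =>
      Fintype.card A ≤ 2 * N * (per f f₀).card)).card := by
  classical
  obtain ⟨f₀, hf₀, hc⟩ := centre Q hQ N h
  refine ⟨f₀, hf₀, ?_⟩
  set Q' := Q.filter (fun f => Fintype.card A ≤ 2 * N * (per f f₀).card) with hQ'
  have hV : 0 < Fintype.card A := Fintype.card_pos
  have h1 : 2 * N * ∑ f ∈ Q, (per f f₀).card ≤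
      2 * N * (Fintype.card A * Q'.card) + Fintype.card A * Q.card := by
    rw [← Finset.sum_filter_add_sum_filter_not Q (fun f =>
      Fintype.card A ≤ 2 * N * (per f f₀).card), mul_add]
    refine Nat.add_le_add ?_ ?_
    · refine Nat.mul_le_mul_left _ ?_
      calc ∑ f ∈ Q', (per f f₀).card ≤ ∑ _f ∈ Q', Fintype.card A :=
            Finset.sum_le_sum fun f _ => (Finset.card_le_univ _)
        _ = Fintype.card A * Q'.card := by
            rw [Finset.sum_const, smul_eq_mul, mul_comm]
    · rw [Finset.mul_sum]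
      calc ∑ f ∈ Q.filter (fun f => ¬ Fintype.card A ≤ 2 * N * (per f f₀).card),
            2 * N * (per f f₀).card
          ≤ ∑ _f ∈ Q.filter (fun f => ¬ Fintype.card A ≤ 2 * N * (per f f₀).card),
            Fintype.card A := by
            refine Finset.sum_le_sum fun f hf => ?_
            have := (Finset.mem_filter.1 hf).2
            omega
        _ ≤ Fintype.card A * Q.card := by
            rw [Finset.sum_const, smul_eq_mul, mul_comm]
            exact Nat.mul_le_mul_left _ (Finset.card_filter_le _ _)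
  have h2 : 2 * (Fintype.card A * Q.card) ≤ 2 * N * ∑ f ∈ Q, (per f f₀).card := by
    rw [mul_assoc 2 N]
    exact Nat.mul_le_mul_left 2 hc
  have h3 : Fintype.card A * Q.card ≤ Fintype.card A * (2 * N * Q'.card) := by
    have e : 2 * N * (Fintype.card A * Q'.card) =
      Fintype.card A * (2 * N * Q'.card) := by ring
    rw [e] at h1
    omega
  exact Nat.le_of_mul_le_mul_left h3 hV

end general

/-! ## Characters -/

section chars

variable {A : Type} [AddCommGroup A] [Fintype A]

/-- Fourier coefficients -/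
noncomputable def hat (g : A → ℂ) (ψ : AddChar A ℂ) : ℂ := (AddChar.complexBasis A).repr g ψ

theorem inversion (g : A → ℂ) (x : A) : ∑ ψ : AddChar A ℂ, hat g ψ * ψ x = g x := by
  have h := (AddChar.complexBasis A).sum_repr g
  have h1 := congrFun h x
  rw [Finset.sum_apply] at h1
  rw [← h1]
  refine Finset.sum_congr rfl fun ψ _ => ?_
  rw [Pi.smul_apply, AddChar.complexBasis_apply, smul_eq_mul]
  rfl

theorem hat_ne_zero {g : A → ℂ} {a : A} (ha : ∀ x, g (x + a) = g x) {ψ : AddChar A ℂ}
    (hψ : hat g ψ ≠ 0) : ψ a = 1 := by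
  have h1 : ∑ χ : AddChar A ℂ, (hat g χ * χ a) • (AddChar.complexBasis A χ) = g := by
    funext x
    rw [Finset.sum_apply]
    have h2 := inversion g (x + a)
    rw [ha] at h2
    rw [← h2]
    refine Finset.sum_congr rfl fun χ _ => ?_
    rw [Pi.smul_apply, AddChar.complexBasis_apply, smul_eq_mul, AddChar.map_add_eq_mul]
    ring
  have h3 : hat g ψ = hat g ψ * ψ a := by
    conv_lhs => rw [hat, ← h1]
    rw [(AddChar.complexBasis A).repr_sum_self]
  have h4 : hat g ψ * (ψ a - 1) = 0 := by linear_combination -h3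
  rcases mul_eq_zero.1 h4 with h | h
  · exact absurd h hψ
  · exact sub_eq_zero.1 h

/-- the common kernel of some characters -/
def Zt (T : Finset (AddChar A ℂ)) : AddSubgroup A where
  carrier := {z | ∀ ψ ∈ T, ψ z = 1}
  add_mem' := by
    intro a b ha hb ψ hψ
    rw [AddChar.map_add_eq_mul, ha ψ hψ, hb ψ hψ, one_mul]
  zero_mem' := by
    intro ψ _
    exact AddChar.map_zero_eq_one ψ
  neg_mem' := by
    intro a ha ψ hψ
    rw [AddChar.map_neg_eq_conj, ha ψ hψ, map_one]

theorem mem_Zt {T : Finset (AddChar A ℂ)} {z : A} : z ∈ Zt T ↔ ∀ ψ ∈ T, ψ z = 1 := Iff.rfl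

open Classical in
/-- the annihilator -/
noncomputable def ann (H : AddSubgroup A) : Finset (AddChar A ℂ) :=
  Finset.univ.filter fun ψ => ∀ a ∈ H, ψ a = 1

theorem card_ann (H : AddSubgroup A) : (ann H).card * Nat.card H ≤ Fintype.card A := by
  classical
  have : Fintype H := Fintype.ofFinite H
  have h1 : ∑ ψ : AddChar A ℂ, ∑ a : H, ψ a = Fintype.card A := by
    rw [Finset.sum_comm]
    have e : ∀ a : H, ∑ ψ : AddChar A ℂ, ψ (a : A) = if a = 0 then (Fintype.card A : ℂ) else 0 := by
      intro a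
      rw [AddChar.sum_apply_eq_ite]
      by_cases ha : a = 0
      · rw [if_pos ha, if_pos (by rw [ha]; rfl)]
      · have ha' : (a : A) ≠ 0 := fun h => ha (Subtype.ext h)
        rw [if_neg ha, if_neg ha']
    rw [Finset.sum_congr rfl fun a _ => e a, Finset.sum_ite_eq' Finset.univ (0 : H),
      if_pos (Finset.mem_univ _)]
  have h2 : ∀ ψ : AddChar A ℂ, ∑ a : H, ψ (a : A) =
      if ψ ∈ ann H then (Nat.card H : ℂ) else 0 := by
    intro ψ
    have h3 := AddChar.sum_eq_ite (ψ.compAddMonoidHom H.subtype)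
    have h4 : (ψ.compAddMonoidHom H.subtype = 0) ↔ ψ ∈ ann H := by
      unfold ann
      rw [Finset.mem_filter]
      constructor
      · intro h
        refine ⟨Finset.mem_univ _, fun a ha => ?_⟩
        have := DFunLike.congr_fun h (⟨a, ha⟩ : H)
        simpa using this
      · rintro ⟨_, h⟩
        ext a
        simpa using h a a.2
    simp only [AddChar.compAddMonoidHom_apply, AddSubgroup.subtype_apply] at h3
    rw [h3, Nat.card_eq_fintype_card]
    by_cases h5 : ψ ∈ ann H
    · rw [if_pos h5, if_pos (h4.2 h5)]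
    · rw [if_neg h5, if_neg (fun h => h5 (h4.1 h))]
  rw [Finset.sum_congr rfl fun ψ _ => h2 ψ, Finset.sum_ite_mem, Finset.univ_inter,
    Finset.sum_const, nsmul_eq_mul] at h1
  have h6 : (ann H).card * Nat.card H = Fintype.card A := by exact_mod_cast h1
  exact h6.le

/-- a proper subgroup has at most half of the elements -/
theorem half {Z W : AddSubgroup A} (h : Z < W) : 2 * Nat.card Z ≤ Nat.card W := by
  have h1 : Nat.card Z ∣ Nat.card W := AddSubgroup.card_dvd_of_le h.le
  obtain ⟨k, hk⟩ := h1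
  have h2 : 0 < Nat.card W := Nat.card_pos
  have h3 : 0 < Nat.card Z := Nat.card_pos
  have h4 : k ≠ 0 := by
    rintro rfl
    omega
  have h5 : k ≠ 1 := by
    rintro rfl
    rw [mul_one] at hk
    exact h.ne (AddSubgroup.eq_of_le_of_card_ge h.le hk.le)
  rw [hk, mul_comm]
  exact Nat.mul_le_mul_left _ (by omega)

/-- few characters with the same common kernel -/
theorem select (S : Finset (AddChar A ℂ)) : ∃ T ⊆ S, (∀ z, z ∈ Zt T → z ∈ Zt S) ∧
    2 ^ T.card * Nat.card (Zt T) ≤ Fintype.card A := by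
  classical
  induction S using Finset.induction_on with
  | empty =>
    refine ⟨∅, subset_rfl, fun z hz => hz, ?_⟩
    rw [Finset.card_empty, pow_zero, one_mul, ← Nat.card_eq_fintype_card]
    exact Nat.card_le_card_of_injective _ Subtype.val_injective
  | insert ψ S _ ih =>
    obtain ⟨T, hTS, hker, hc⟩ := ih
    by_cases h : ∀ z ∈ Zt T, ψ z = 1
    · refine ⟨T, hTS.trans (Finset.subset_insert _ _), fun z hz => ?_, hc⟩
      intro χ hχ
      rcases Finset.mem_insert.1 hχ with rfl | hχ
      · exact h z hz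
      · exact hker z hz χ hχ
    · push Not at h
      obtain ⟨z₀, hz₀, hz₁⟩ := h
      have hlt : Zt (insert ψ T) < Zt T := by
        refine lt_of_le_of_ne ?_ ?_
        · intro z hz χ hχ
          exact hz χ (Finset.mem_insert_of_mem hχ)
        · intro he
          rw [← he] at hz₀
          exact hz₁ (hz₀ ψ (Finset.mem_insert_self _ _))
      have hψT : ψ ∉ T := fun hmem => hz₁ (hz₀ ψ hmem)
      refine ⟨insert ψ T, Finset.insert_subset_insert _ hTS, fun z hz => ?_, ?_⟩
      · intro χ hχ
        rcases Finset.mem_insert.1 hχ with rfl | hχ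
        · exact hz χ (Finset.mem_insert_self _ _)
        · exact hker z (fun χ' hχ' => hz χ' (Finset.mem_insert_of_mem hχ')) χ hχ
      · rw [Finset.card_insert_of_notMem hψT, pow_succ, mul_assoc]
        exact (Nat.mul_le_mul_left _ (half hlt)).trans hc

/-- few generators of a small quotient -/
theorem gens : ∀ (K : ℕ) (Z : AddSubgroup A), Fintype.card A ≤ 2 ^ K * Nat.card Z →
    ∃ b : Fin K → A, ∀ H : AddSubgroup A, Z ≤ H → (∀ j, b j ∈ H) → H = ⊤ := by
  intro K
  induction K with
  | zero =>
    intro Z hZ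
    refine ⟨Fin.elim0, fun H hH _ => ?_⟩
    rw [pow_zero, one_mul, ← Nat.card_eq_fintype_card] at hZ
    have h1 : Z = ⊤ := AddSubgroup.eq_top_of_le_card Z hZ
    rw [h1] at hH
    exact top_le_iff.1 hH
  | succ K ih =>
    intro Z hZ
    by_cases hT : Z = ⊤
    · refine ⟨fun _ => 0, fun H hH _ => ?_⟩
      rw [hT] at hH
      exact top_le_iff.1 hH
    · obtain ⟨b, hb⟩ : ∃ b, b ∉ Z := by
        by_contra hcon
        push Not at hcon
        exact hT ((AddSubgroup.eq_top_iff' Z).2 hcon)
      have hlt : Z < Z ⊔ AddSubgroup.zmultiples b := by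
        refine lt_of_le_of_ne le_sup_left ?_
        intro he
        apply hb
        rw [he]
        exact AddSubgroup.mem_sup_right (AddSubgroup.mem_zmultiples b)
      obtain ⟨b', hb'⟩ := ih (Z ⊔ AddSubgroup.zmultiples b) (by
        have := half hlt
        rw [pow_succ, mul_assoc] at hZ
        exact hZ.trans (Nat.mul_le_mul_left _ this))
      refine ⟨Fin.cons b b', fun H hH hj => ?_⟩
      refine hb' H (sup_le hH ?_) fun j => ?_
      · rw [AddSubgroup.zmultiples_le]
        exact hj 0
      · have := hj j.succ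
        rwa [Fin.cons_succ] at this

end chars

/-! ## Counting -/

section count

variable {A : Type} [AddCommGroup A] [Fintype A] [DecidableEq A] {m : ℕ} [NeZero m]

/-- maps `f` such that `f - f₀` is invariant under a subgroup of small index -/
theorem count_Z (F : Finset (A → ZMod m)) (f₀ : A → ZMod m) (Z : AddSubgroup A)
    (K N : ℕ) (hK : Fintype.card A ≤ 2 ^ K * Nat.card Z)
    (hD : ∀ a, (F.image (D a)).card ≤ N) (hF : ∀ f ∈ F, Z ≤ perS (f - f₀)) :
    F.card ≤ m * N ^ K := by
  classical
  obtain ⟨b, hb⟩ := gens K Z hK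
  let Φ : (A → ZMod m) → ZMod m × (Fin K → (A → ZMod m)) := fun f => (f 0, fun j => D (b j) f)
  have hinj : Set.InjOn Φ (F : Set (A → ZMod m)) := by
    intro f hf f' hf' h
    have h0 : f 0 = f' 0 := congrArg Prod.fst h
    have h1 : ∀ j, D (b j) f = D (b j) f' := fun j => congrFun (congrArg Prod.snd h) j
    have htop : perS (f - f') = ⊤ := by
      refine hb _ ?_ fun j => ?_
      · intro z hz x
        have e1 := hF f hf hz x
        have e2 := hF f' hf' hz x
        simp only [Pi.sub_apply] at e1 e2 ⊢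
        linear_combination e1 - e2
      · rw [← mem_per]
        exact Finset.mem_filter.2 ⟨Finset.mem_univ _, h1 j⟩
    funext x
    have hx : x ∈ perS (f - f') := by rw [htop]; trivial
    have h2 := hx 0
    simp only [Pi.sub_apply, zero_add] at h2
    rw [h0, sub_self] at h2
    exact sub_eq_zero.1 h2
  have h1 : (F.image Φ).card = F.card := Finset.card_image_of_injOn hinj
  rw [← h1]
  have hsub : F.image Φ ⊆ (Finset.univ : Finset (ZMod m)) ×ˢ
      Fintype.piFinset (fun j => F.image (D (b j))) := by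
    intro p hp
    obtain ⟨f, hf, rfl⟩ := Finset.mem_image.1 hp
    rw [Finset.mem_product]
    refine ⟨Finset.mem_univ _, ?_⟩
    rw [Fintype.mem_piFinset]
    intro j
    exact Finset.mem_image_of_mem _ hf
  refine (Finset.card_le_card hsub).trans ?_
  rw [Finset.card_product, Fintype.card_piFinset, Finset.card_univ, ZMod.card]
  refine Nat.mul_le_mul_left _ ?_
  calc ∏ j, (F.image (D (b j))).card ≤ ∏ _j : Fin K, N := Finset.prod_le_prod' fun j _ => hD _
    _ = N ^ K := by rw [Finset.prod_const, Finset.card_univ, Fintype.card_fin]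

/-- number of small subsets -/
theorem card_small {α : Type} [DecidableEq α] (L : Finset α) (K : ℕ) :
    (L.powerset.filter (fun T => T.card ≤ K)).card ≤ (L.card + 1) ^ K := by
  induction K with
  | zero =>
    rw [pow_zero]
    refine Finset.card_le_one.2 fun a ha b hb => ?_
    have h1 := (Finset.mem_filter.1 ha).2
    have h2 := (Finset.mem_filter.1 hb).2
    rw [Nat.le_zero, Finset.card_eq_zero] at h1 h2
    rw [h1, h2]
  | succ K ih =>
    have hsub : L.powerset.filter (fun T => T.card ≤ K + 1) ⊆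
        L.powerset.filter (fun T => T.card ≤ K) ∪ L.powersetCard (K + 1) := by
      intro T hT
      rw [Finset.mem_filter, Finset.mem_powerset] at hT
      rw [Finset.mem_union, Finset.mem_filter, Finset.mem_powerset, Finset.mem_powersetCard]
      rcases Nat.lt_or_ge K T.card with h | h
      · right; exact ⟨hT.1, by omega⟩
      · left; exact ⟨hT.1, h⟩
    refine (Finset.card_le_card hsub).trans ((Finset.card_union_le _ _).trans ?_)
    rw [Finset.card_powersetCard]
    have h1 : L.card.choose (K + 1) ≤ L.card * (L.card + 1) ^ K := by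
      refine (Nat.choose_le_pow _ _).trans ?_
      rw [pow_succ, mul_comm]
      exact Nat.mul_le_mul_left _ (Nat.pow_le_pow_left (Nat.le_succ _) _)
    calc _ ≤ (L.card + 1) ^ K + L.card * (L.card + 1) ^ K := Nat.add_le_add ih h1
      _ = (L.card + 1) ^ (K + 1) := by ring

/-- the character of `ℤ / m` -/
noncomputable def ex (c : ZMod m) : ℂ := ZMod.stdAddChar c

theorem ex_sub (a b : ZMod m) : ex (a - b) = ex a * starRingEnd ℂ (ex b) := by
  unfold ex
  rw [sub_eq_add_neg, AddChar.map_add_eq_mul, AddChar.map_neg_eq_conj]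

theorem ex_inj {a b : ZMod m} (h : ex a = ex b) : a = b := ZMod.injective_stdAddChar h

/-- factorisation of the matrix `ex (f x)` through dimension `r` -/
def Fac (r : ℕ) (Q : Finset (A → ZMod m)) : Prop :=
  ∃ (ι : Type) (_ : Fintype ι) (u : A → ι → ℂ) (v : (A → ZMod m) → ι → ℂ),
    Fintype.card ι ≤ r ∧ ∀ f ∈ Q, ∀ x, ex (f x) = ∑ i, u x i * v f i

omit [Fintype A] [DecidableEq A] in
theorem Fac.D [DecidableEq (A → ZMod m)] {r : ℕ} {Q : Finset (A → ZMod m)} (h : Fac r Q)
    (a : A) : Fac (r * r) (Q.image (Pool.Agent.Y405.PM.D a)) := by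
  classical
  obtain ⟨ι, hι, u, v, hc, hf⟩ := h
  have hpre : ∀ g : A → ZMod m, ∃ f, g ∈ Q.image (Pool.Agent.Y405.PM.D a) →
      f ∈ Q ∧ Pool.Agent.Y405.PM.D a f = g := by
    intro g
    by_cases hg : g ∈ Q.image (Pool.Agent.Y405.PM.D a)
    · obtain ⟨f, h1, h2⟩ := Finset.mem_image.1 hg
      exact ⟨f, fun _ => ⟨h1, h2⟩⟩
    · exact ⟨g, fun h => absurd h hg⟩
  choose pre hpre using hpre
  refine ⟨ι × ι, inferInstance, fun x i => u (x + a) i.1 * starRingEnd ℂ (u x i.2),
    fun g i => v (pre g) i.1 * starRingEnd ℂ (v (pre g) i.2), ?_, ?_⟩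
  · rw [Fintype.card_prod]
    exact Nat.mul_le_mul hc hc
  · intro g hg x
    obtain ⟨h1, h2⟩ := hpre g hg
    have e : ex (g x) = ex (pre g (x + a)) * starRingEnd ℂ (ex (pre g x)) := by
      rw [← ex_sub]
      exact congrArg ex (congrFun h2 x).symm
    rw [e, hf _ h1, hf _ h1, map_sum, Finset.sum_mul_sum, Fintype.sum_prod_type]
    refine Finset.sum_congr rfl fun i _ => Finset.sum_congr rfl fun j _ => ?_
    rw [map_mul]
    ring

/-- the phase of `f - f₀` -/
noncomputable def G (f₀ f : A → ZMod m) : A → ℂ := fun x => ex (f x - f₀ x)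

omit [DecidableEq A] in
theorem hat_linear (ψ : AddChar A ℂ) (S : Set (A → ℂ)) (hS : ∀ g ∈ S, hat g ψ = 0)
    (g : A → ℂ) (hg : g ∈ Submodule.span ℂ S) : hat g ψ = 0 := by
  induction hg using Submodule.span_induction with
  | mem x hx => exact hS x hx
  | zero => simp [hat]
  | add x y _ _ hx hy =>
    unfold hat at *
    rw [map_add, Finsupp.add_apply, hx, hy, add_zero]
  | smul c x _ hx =>
    unfold hat at *
    rw [map_smul, Finsupp.smul_apply, hx, smul_zero]

theorem supp_ann {f f₀ : A → ZMod m} {ψ : AddChar A ℂ} (hψ : hat (G f₀ f) ψ ≠ 0) :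
    ψ ∈ ann (perS (f - f₀)) := by
  classical
  unfold ann
  refine Finset.mem_filter.2 ⟨Finset.mem_univ _, fun a ha => hat_ne_zero (fun x => ?_) hψ⟩
  have h := ha x
  simp only [Pi.sub_apply] at h
  unfold G
  rw [h]

theorem card_ann_per {f f₀ : A → ZMod m} {N : ℕ}
    (h : Fintype.card A ≤ 2 * N * (per f f₀).card) : (ann (perS (f - f₀))).card ≤ 2 * N := by
  have h1 := card_ann (perS (f - f₀))
  have h2 : 0 < Nat.card (perS (f - f₀)) := Nat.card_pos
  rw [← card_per] at h
  exact Nat.le_of_mul_le_mul_right (h1.trans h) h2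

/-- **One step**: few distinct differences in every direction and small rank imply few distinct
maps. -/
theorem step (r N K : ℕ) (hNK : 2 * N ≤ 2 ^ K) (Q : Finset (A → ZMod m))
    (hfac : Fac r Q) (hD : ∀ a, (Q.image (D a)).card ≤ N) :
    Q.card ≤ 2 * N * ((r * (2 * N) + 1) ^ K * (m * N ^ K)) := by
  classical
  rcases Q.eq_empty_or_nonempty with rfl | hQ
  · simp
  obtain ⟨f₀, hf₀, hpop⟩ := popular Q hQ N hD
  set Q' := Q.filter (fun f => Fintype.card A ≤ 2 * N * (per f f₀).card) with hQ'
  refine hpop.trans (Nat.mul_le_mul_left _ ?_)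
  obtain ⟨ι, hι, u, v, hc, hf⟩ := hfac
  -- the span
  set S : Set (A → ℂ) := (fun f => G f₀ f) '' (Q' : Set (A → ZMod m)) with hS
  let w : ι → A → ℂ := fun i x => u x i * starRingEnd ℂ (ex (f₀ x))
  have hSW : S ⊆ Submodule.span ℂ (Set.range w) := by
    rintro _ ⟨f, hfQ', rfl⟩
    have hfQ : f ∈ Q := (Finset.mem_filter.1 hfQ').1
    have e : G f₀ f = ∑ i, v f i • w i := by
      funext x
      rw [Finset.sum_apply]
      simp only [Pi.smul_apply, smul_eq_mul, w]
      unfold G
      rw [ex_sub, hf f hfQ x, Finset.sum_mul]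
      refine Finset.sum_congr rfl fun i _ => by ring
    change G f₀ f ∈ _
    rw [e]
    exact Submodule.sum_mem _ fun i _ => Submodule.smul_mem _ _
      (Submodule.subset_span ⟨i, rfl⟩)
  obtain ⟨b, hbS, hbspan, hbli⟩ := exists_linearIndependent ℂ S
  have hSfin : S.Finite := (Finset.finite_toSet Q').image _
  have hbfin : b.Finite := hSfin.subset hbS
  have hbcard : hbfin.toFinset.card ≤ r := by
    have : Fintype b := hbfin.fintype
    have h1 : finrank ℂ (Submodule.span ℂ b) = hbfin.toFinset.card := by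
      rw [finrank_span_set_eq_card hbli, Set.Finite.card_toFinset, Set.toFinset_card]
    rw [← h1, hbspan]
    have h2 : Submodule.span ℂ S ≤ Submodule.span ℂ (Set.range w) := Submodule.span_le.2 hSW
    have h3 : finrank ℂ (Submodule.span ℂ (Set.range w)) ≤ Fintype.card ι :=
      finrank_range_le_card w
    exact (Submodule.finrank_mono h2).trans (h3.trans hc)
  let L : Finset (AddChar A ℂ) := hbfin.toFinset.biUnion
    (fun g => Finset.univ.filter (fun ψ => hat g ψ ≠ 0))
  have hL : L.card ≤ r * (2 * N) := by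
    refine (Finset.card_biUnion_le).trans ?_
    calc ∑ g ∈ hbfin.toFinset, (Finset.univ.filter (fun ψ => hat g ψ ≠ 0)).card
        ≤ ∑ _g ∈ hbfin.toFinset, 2 * N := by
          refine Finset.sum_le_sum fun g hg => ?_
          have hgS := hbS (hbfin.mem_toFinset.1 hg)
          obtain ⟨f, hfQ', rfl⟩ := hgS
          have h1 := card_ann_per (Finset.mem_filter.1 hfQ').2
          refine le_trans ?_ h1
          refine Finset.card_le_card fun ψ hψ => ?_
          exact supp_ann (Finset.mem_filter.1 hψ).2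
      _ ≤ r * (2 * N) := by
          rw [Finset.sum_const, smul_eq_mul]
          exact Nat.mul_le_mul_right _ hbcard
  have hsuppL : ∀ f ∈ Q', ∀ ψ, hat (G f₀ f) ψ ≠ 0 → ψ ∈ L := by
    intro f hfQ' ψ hψ
    by_contra hnot
    refine hψ (hat_linear ψ b (fun g hg => ?_) (G f₀ f) ?_)
    · by_contra hg0
      exact hnot (Finset.mem_biUnion.2 ⟨g, hbfin.mem_toFinset.2 hg,
        Finset.mem_filter.2 ⟨Finset.mem_univ _, hg0⟩⟩)
    · rw [hbspan]
      exact Submodule.subset_span ⟨f, hfQ', rfl⟩
  let 𝒯 := L.powerset.filter (fun T => T.card ≤ K)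
  have hcover : ∀ f ∈ Q', ∃ T ∈ 𝒯, Fintype.card A ≤ 2 ^ K * Nat.card (Zt T) ∧
      Zt T ≤ perS (f - f₀) := by
    intro f hfQ'
    set supp : Finset (AddChar A ℂ) := Finset.univ.filter (fun ψ => hat (G f₀ f) ψ ≠ 0) with hsupp
    obtain ⟨T, hTs, hker, hcT⟩ := select supp
    have hle : perS (f - f₀) ≤ Zt T := by
      intro a ha ψ hψ
      have h1 := supp_ann (Finset.mem_filter.1 (hTs hψ)).2
      exact (Finset.mem_filter.1 h1).2 a ha
    have hper := (Finset.mem_filter.1 hfQ').2
    rw [← card_per] at hper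
    have hcard : Nat.card (perS (f - f₀)) ≤ Nat.card (Zt T) :=
      Nat.card_mono (Set.toFinite _) hle
    have hZ : Fintype.card A ≤ 2 ^ K * Nat.card (Zt T) :=
      hper.trans (Nat.mul_le_mul hNK hcard)
    have hTK : T.card ≤ K := by
      have h1 : 2 ^ T.card * Nat.card (Zt T) ≤ 2 ^ K * Nat.card (Zt T) := hcT.trans hZ
      have h2 : 0 < Nat.card (Zt T) := Nat.card_pos
      exact (Nat.pow_le_pow_iff_right (by norm_num)).1 (Nat.le_of_mul_le_mul_right h1 h2)
    refine ⟨T, Finset.mem_filter.2 ⟨Finset.mem_powerset.2 fun ψ hψ => ?_, hTK⟩, hZ, ?_⟩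
    · exact hsuppL f hfQ' ψ (Finset.mem_filter.1 (hTs hψ)).2
    · intro z hz x
      have hz' := hker z hz
      have e1 := inversion (G f₀ f) (x + z)
      have e2 := inversion (G f₀ f) x
      have e3 : ∑ ψ, hat (G f₀ f) ψ * ψ (x + z) = ∑ ψ, hat (G f₀ f) ψ * ψ x := by
        refine Finset.sum_congr rfl fun ψ _ => ?_
        by_cases hψ : hat (G f₀ f) ψ = 0
        · rw [hψ, zero_mul, zero_mul]
        · rw [AddChar.map_add_eq_mul, hz' ψ (Finset.mem_filter.2 ⟨Finset.mem_univ _, hψ⟩), mul_one]
      rw [e1, e2] at e3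
      exact ex_inj e3
  have hcov2 : Q' ⊆ 𝒯.biUnion (fun T => Q'.filter (fun f =>
      Fintype.card A ≤ 2 ^ K * Nat.card (Zt T) ∧ Zt T ≤ perS (f - f₀))) := by
    intro f hf'
    obtain ⟨T, hT, h⟩ := hcover f hf'
    exact Finset.mem_biUnion.2 ⟨T, hT, Finset.mem_filter.2 ⟨hf', h⟩⟩
  refine (Finset.card_le_card hcov2).trans (Finset.card_biUnion_le.trans ?_)
  calc ∑ T ∈ 𝒯, (Q'.filter (fun f =>
        Fintype.card A ≤ 2 ^ K * Nat.card (Zt T) ∧ Zt T ≤ perS (f - f₀))).card
      ≤ ∑ _T ∈ 𝒯, m * N ^ K := by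
        refine Finset.sum_le_sum fun T hT => ?_
        by_cases hZ : Fintype.card A ≤ 2 ^ K * Nat.card (Zt T)
        · refine count_Z _ f₀ (Zt T) K N hZ (fun a => ?_) ?_
          · refine (Finset.card_le_card ?_).trans (hD a)
            exact Finset.image_subset_image
              ((Finset.filter_subset _ _).trans (Finset.filter_subset _ _))
          · intro f hf
            exact (Finset.mem_filter.1 hf).2.2
        · have : (Q'.filter (fun f =>
              Fintype.card A ≤ 2 ^ K * Nat.card (Zt T) ∧ Zt T ≤ perS (f - f₀))) = ∅ := by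
            refine Finset.filter_eq_empty_iff.2 fun f _ h => hZ h.1
          rw [this, Finset.card_empty]
          exact Nat.zero_le _
    _ = 𝒯.card * (m * N ^ K) := by rw [Finset.sum_const, smul_eq_mul]
    _ ≤ (r * (2 * N) + 1) ^ K * (m * N ^ K) := by
        refine Nat.mul_le_mul_right _ ((card_small L K).trans ?_)
        exact Nat.pow_le_pow_left (by omega) _

end count

end Pool.Agent.Y405.PM
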