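import Pool.Agent.Y405.PM.Cnt
import Pool.Agent.H161R4.Final

/-!
# Boolean matrices with polynomial columns: few distinct columns
-/

set_option autoImplicit false
set_option linter.unusedSectionVars false

namespace Pool.Agent.Y405.PM

open Finset Module

/-- the exponent -/
def B (q : ℕ) : ℕ → ℕ → ℕ
  | 0, _ => q
  | d + 1, s => 2 * (B q d (2 * s) + 1) ^ 2 + (s + 1) * (B q d (2 * s) + 1) + q

theorem main {A : Type} [AddCommGroup A] [Fintype A] {m : ℕ} [NeZero m] (q : ℕ) (hq : m ≤ 2 ^ q)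
    (d : ℕ) : ∀ (s : ℕ) (Q : Finset (A → ZMod m)), Fac (2 ^ s) Q →
    (∀ f ∈ Q, Pol d f) → Q.card ≤ 2 ^ B q d s := by
  classical
  induction d with
  | zero =>
    intro s Q _ hpol
    have hsub : Q ⊆ (univ : Finset (ZMod m)).image (fun c => fun _ : A => c) := by
      intro f hf
      have h := hpol f hf
      exact mem_image.2 ⟨f 0, mem_univ _, funext fun x => h 0 x⟩
    refine (Finset.card_le_card hsub).trans (card_image_le.trans ?_)
    rw [card_univ, ZMod.card]
    exact hq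
  | succ d ih =>
    intro s Q hfac hpol
    set b := B q d (2 * s) with hb
    have hD : ∀ a, (Q.image (D a)).card ≤ 2 ^ b := by
      intro a
      refine ih (2 * s) _ ?_ ?_
      · have := hfac.D a
        rwa [← pow_add, ← two_mul] at this
      · intro g hg
        obtain ⟨f, hf, rfl⟩ := Finset.mem_image.1 hg
        exact hpol f hf a
    have h1 := step (2 ^ s) (2 ^ b) (b + 1) (by rw [pow_succ, mul_comm]) Q hfac hD
    refine h1.trans ?_
    have e1 : 2 * 2 ^ b = 2 ^ (b + 1) := by rw [pow_succ, mul_comm]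
    rw [e1, ← pow_add, ← pow_mul]
    have h2 : (2 ^ (s + (b + 1)) + 1) ^ (b + 1) ≤ 2 ^ ((s + (b + 1) + 1) * (b + 1)) := by
      rw [pow_mul]
      refine Nat.pow_le_pow_left ?_ _
      have : 1 ≤ 2 ^ (s + (b + 1)) := Nat.one_le_two_pow
      rw [pow_succ]
      omega
    calc 2 ^ (b + 1) * ((2 ^ (s + (b + 1)) + 1) ^ (b + 1) * (m * 2 ^ (b * (b + 1))))
        ≤ 2 ^ (b + 1) * (2 ^ ((s + (b + 1) + 1) * (b + 1)) * (2 ^ q * 2 ^ (b * (b + 1)))) :=
          Nat.mul_le_mul_left _ (Nat.mul_le_mul h2 (Nat.mul_le_mul_right _ hq))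
      _ = 2 ^ B q (d + 1) s := by
          rw [← pow_add, ← pow_add, ← pow_add]
          congr 1
          simp only [B]
          rw [← hb]
          ring

theorem B_ge (q d : ℕ) : ∀ s, s + q + 2 ≤ B q (d + 1) s + 1 := by
  intro s
  simp only [B]
  have h1 : (s + 1) * 1 ≤ (s + 1) * (B q d (2 * s) + 1) := Nat.mul_le_mul_left _ (by omega)
  omega

/-- closed form -/
theorem B_le (q d : ℕ) : ∀ s,
    5 * (B q (d + 1) s + 1) ≤ (20 * (q + 1) ^ 2 * 2 ^ d * (s + 1)) ^ 2 ^ d := by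
  induction d with
  | zero =>
    intro s
    simp only [B, pow_zero, pow_one, mul_one]
    have h1 : (q + 1) ^ 2 * 1 ≤ (q + 1) ^ 2 * (s + 1) := Nat.mul_le_mul_left _ (by omega)
    have h2 : (s + 1) * (q + 1) ≤ (q + 1) ^ 2 * (s + 1) := by
      rw [mul_comm (s + 1)]
      exact Nat.mul_le_mul_right _ (Nat.le_self_pow (by norm_num) _)
    have h3 : q + 1 ≤ (q + 1) ^ 2 * (s + 1) := (Nat.le_self_pow (by norm_num) _).trans
      (Nat.le_mul_of_pos_right _ (by omega))
    calc 5 * (2 * (q + 1) ^ 2 + (s + 1) * (q + 1) + q + 1)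
        ≤ 5 * (2 * ((q + 1) ^ 2 * (s + 1)) + (q + 1) ^ 2 * (s + 1) + (q + 1) ^ 2 * (s + 1)) := by
          omega
      _ = 20 * (q + 1) ^ 2 * (s + 1) := by ring
  | succ d ih =>
    intro s
    set e := 2 ^ d with he
    set K := B q (d + 1) (2 * s) + 1 with hK
    have h00 := B_ge q d (2 * s)
    rw [← hK] at h00
    have h0 : s + 1 ≤ K := by omega
    have h0' : q + 1 ≤ K := by omega
    have h1 : 5 * K ≤ (20 * (q + 1) ^ 2 * 2 ^ (d + 1) * (s + 1)) ^ e := by
      refine (ih (2 * s)).trans (Nat.pow_le_pow_left ?_ _)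
      rw [pow_succ 2 d, ← he]
      have : 2 * s + 1 ≤ 2 * (s + 1) := by omega
      calc 20 * (q + 1) ^ 2 * e * (2 * s + 1) ≤ 20 * (q + 1) ^ 2 * e * (2 * (s + 1)) :=
            Nat.mul_le_mul_left _ this
        _ = 20 * (q + 1) ^ 2 * (e * 2) * (s + 1) := by ring
    have hB : B q (d + 1 + 1) s = 2 * K ^ 2 + (s + 1) * K + q := rfl
    have h2 : B q (d + 1 + 1) s + 1 ≤ 5 * K ^ 2 := by
      rw [hB]
      have h3 : (s + 1) * K ≤ K ^ 2 := by
        rw [sq]; exact Nat.mul_le_mul_right _ h0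
      have h4 : K ≤ K ^ 2 := Nat.le_self_pow (by norm_num) _
      omega
    calc 5 * (B q (d + 1 + 1) s + 1) ≤ 5 * (5 * K ^ 2) := Nat.mul_le_mul_left _ h2
      _ = (5 * K) ^ 2 := by ring
      _ ≤ ((20 * (q + 1) ^ 2 * 2 ^ (d + 1) * (s + 1)) ^ e) ^ 2 := Nat.pow_le_pow_left h1 _
      _ = (20 * (q + 1) ^ 2 * 2 ^ (d + 1) * (s + 1)) ^ 2 ^ (d + 1) := by
          rw [← pow_mul, he, pow_succ 2 d]

/-- the bit `b` as an element of a ring -/
def bit (R : Type) [Zero R] [One R] (b : Bool) : R := if b then 1 else 0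

theorem bit_inj {R : Type} [Zero R] [One R] [NeZero (1 : R)] {a b : Bool}
    (h : bit R a = bit R b) : a = b := by
  cases a <;> cases b
  · rfl
  · exact absurd h.symm (by simp [bit])
  · exact absurd h (by simp [bit])
  · rfl

theorem map_bit {R R' : Type} [CommRing R] [CommRing R'] (φ : R →+ R') (h1 : φ 1 = 1) (b : Bool) :
    φ (bit R b) = bit R' b := by
  cases b
  · simp [bit]
  · simp [bit, h1]

theorem ex_bit {m : ℕ} [NeZero m] (b : Bool) :
    ex (bit (ZMod m) b) = 1 + (ex (1 : ZMod m) - 1) * ((if b then (1 : ℝ) else 0 : ℝ) : ℂ) := by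
  cases b
  · simp [bit, ex]
  · simp [bit]

/-- few distinct columns -/
theorem columns {A Y : Type} [AddCommGroup A] [Fintype A] [Fintype Y] (p : ℕ) [Fact p.Prime]
    (q : ℕ) (hq : p ≤ 2 ^ q) (d : ℕ) (F : A → Y → Bool)
    (hF : ∀ y y', Pol d (fun x => bit (ZMod p) (F x y) - bit (ZMod p) (F x y'))) (s : ℕ)
    (hs : (Matrix.of (fun (x : A) (y : Y) => if F x y then (1 : ℝ) else 0)).rank + 1 ≤ 2 ^ s) :
    ∃ enc : Y → (Fin (B q d s) → Bool), ∀ y y', enc y = enc y' → ∀ x, F x y = F x y' := by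
  classical
  rcases isEmpty_or_nonempty Y with hY | ⟨⟨y₀⟩⟩
  · exact ⟨fun y => isEmptyElim y, fun y => isEmptyElim y⟩
  set M := Matrix.of (fun (x : A) (y : Y) => if F x y then (1 : ℝ) else 0) with hM
  obtain ⟨u, v, huv⟩ := Pool.Agent.H161R4.rank_fac M
  let q' : Y → A → ZMod p := fun y x => bit (ZMod p) (F x y) - bit (ZMod p) (F x y₀)
  let Q : Finset (A → ZMod p) := Finset.univ.image q'
  have hpre : ∀ f : A → ZMod p, ∃ y, f ∈ Q → q' y = f := by
    intro f
    by_cases hf : f ∈ Q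
    · obtain ⟨y, _, hy⟩ := Finset.mem_image.1 hf
      exact ⟨y, fun _ => hy⟩
    · exact ⟨y₀, fun h => absurd h hf⟩
  choose pre hpre using hpre
  have hfac : Fac (2 ^ s) Q := by
    refine ⟨Option (Fin M.rank), inferInstance,
      fun x i => Option.elim i (starRingEnd ℂ (ex (bit (ZMod p) (F x y₀))))
        (fun j => (ex (1 : ZMod p) - 1) * (u x j : ℂ) * starRingEnd ℂ (ex (bit (ZMod p) (F x y₀)))),
      fun f i => Option.elim i 1 (fun j => (v (pre f) j : ℂ)), ?_, ?_⟩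
    · rw [Fintype.card_option, Fintype.card_fin]
      exact hs
    · intro f hf x
      have e : f x = bit (ZMod p) (F x (pre f)) - bit (ZMod p) (F x y₀) :=
        (congrFun (hpre f hf) x).symm
      rw [e, ex_sub, ex_bit (F x (pre f)), Fintype.sum_option]
      have h1 : (if F x (pre f) then (1 : ℝ) else 0) = ∑ i, u x i * v (pre f) i := huv x (pre f)
      rw [h1]
      simp only [Option.elim_none, Option.elim_some]
      push_cast
      rw [add_mul, Finset.mul_sum, Finset.sum_mul, mul_one, one_mul]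
      congr 1
      refine Finset.sum_congr rfl fun i _ => by ring
  have hQ := main q hq d s Q hfac (by
    intro f hf
    obtain ⟨y, _, rfl⟩ := Finset.mem_image.1 hf
    exact hF y y₀)
  have hcard : Fintype.card Q ≤ Fintype.card (Fin (B q d s) → Bool) := by
    rw [Fintype.card_coe, Fintype.card_fun, Fintype.card_bool, Fintype.card_fin]
    exact hQ
  obtain ⟨e⟩ := Function.Embedding.nonempty_of_card_le hcard
  refine ⟨fun y => e ⟨q' y, Finset.mem_image_of_mem _ (Finset.mem_univ _)⟩, fun y y' h x => ?_⟩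
  have h1 : q' y = q' y' := congrArg Subtype.val (e.injective h)
  have h2 := congrFun h1 x
  exact bit_inj (sub_left_injective h2)

/-- the bound -/
noncomputable def bound (d r : ℕ) : ℝ :=
  (60 * ((d : ℝ) + 3) ^ 2 * 2 ^ d * (Real.logb 2 (r : ℝ) + 1)) ^ 2 ^ d

theorem logb_nonneg (r : ℕ) : 0 ≤ Real.logb 2 (r : ℝ) := by
  rcases Nat.eq_zero_or_pos r with rfl | hr
  · norm_num
  · exact Real.logb_nonneg (by norm_num) (by exact_mod_cast hr)

theorem bound_mono (d : ℕ) {r r' : ℕ} (h : r ≤ r') : bound d r ≤ bound d r' := by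
  unfold bound
  have h0 := logb_nonneg r
  have h1 : Real.logb 2 (r : ℝ) ≤ Real.logb 2 (r' : ℝ) := by
    rcases Nat.eq_zero_or_pos r with rfl | hr
    · have := logb_nonneg r'
      simpa using this
    · exact Real.logb_le_logb_of_le (by norm_num) (by exact_mod_cast hr) (by exact_mod_cast h)
  refine pow_le_pow_left₀ (by positivity) ?_ _
  exact mul_le_mul_of_nonneg_left (by linarith) (by positivity)

theorem two_le_bound (d r : ℕ) : 2 ≤ bound d r := by
  unfold bound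
  have h0 := logb_nonneg r
  have h1 : (2 : ℝ) ≤ 60 * ((d : ℝ) + 3) ^ 2 * 2 ^ d * (Real.logb 2 (r : ℝ) + 1) := by
    have e1 : (1 : ℝ) ≤ 2 ^ d := one_le_pow₀ (by norm_num)
    have e2 : (1 : ℝ) ≤ ((d : ℝ) + 3) ^ 2 := one_le_pow₀ (by linarith [Nat.cast_nonneg (α := ℝ) d])
    have e3 : (1 : ℝ) ≤ ((d : ℝ) + 3) ^ 2 * 2 ^ d := one_le_mul_of_one_le_of_one_le e2 e1
    have e4 : (1 : ℝ) ≤ ((d : ℝ) + 3) ^ 2 * 2 ^ d * (Real.logb 2 (r : ℝ) + 1) :=
      one_le_mul_of_one_le_of_one_le e3 (by linarith)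
    nlinarith
  refine h1.trans (le_self_pow₀ (by linarith) (by positivity))

/-- the numerical bound -/
theorem cost_le (d r : ℕ) :
    ((B (d + 2) (d + 1) (Nat.clog 2 (r + 1)) + 1 : ℕ) : ℝ) ≤ bound d r := by
  have h1 := B_le (d + 2) d (Nat.clog 2 (r + 1))
  have h2 : ((Nat.clog 2 (r + 1) : ℕ) : ℝ) + 1 ≤ 3 * (Real.logb 2 (r : ℝ) + 1) := by
    rcases Nat.eq_zero_or_pos r with rfl | hr
    · norm_num
    · have h3 : Nat.clog 2 (r + 1) ≤ Nat.log 2 r + 1 := by
        refine Nat.clog_le_of_le_pow ?_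
        exact Nat.lt_pow_succ_log_self (by norm_num) r
      have h4 : ((Nat.log 2 r : ℕ) : ℝ) ≤ Real.logb 2 (r : ℝ) := Real.natLog_le_logb r 2
      have h5 : (0 : ℝ) ≤ Real.logb 2 (r : ℝ) := logb_nonneg r
      have h6 : ((Nat.clog 2 (r + 1) : ℕ) : ℝ) ≤ (Nat.log 2 r : ℕ) + 1 := by exact_mod_cast h3
      linarith
  have h4 : (5 : ℝ) * ((B (d + 2) (d + 1) (Nat.clog 2 (r + 1)) + 1 : ℕ) : ℝ) ≤
      (20 * (((d : ℝ) + 2) + 1) ^ 2 * 2 ^ d * (((Nat.clog 2 (r + 1) : ℕ) : ℝ) + 1)) ^ 2 ^ d := by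
    exact_mod_cast h1
  have h5 : (20 * (((d : ℝ) + 2) + 1) ^ 2 * 2 ^ d * (((Nat.clog 2 (r + 1) : ℕ) : ℝ) + 1)) ^ 2 ^ d ≤
      bound d r := by
    unfold bound
    refine pow_le_pow_left₀ (by positivity) ?_ _
    have : (0 : ℝ) ≤ 20 * ((d : ℝ) + 3) ^ 2 * 2 ^ d := by positivity
    calc (20 * (((d : ℝ) + 2) + 1) ^ 2 * 2 ^ d * (((Nat.clog 2 (r + 1) : ℕ) : ℝ) + 1))
        = 20 * ((d : ℝ) + 3) ^ 2 * 2 ^ d * (((Nat.clog 2 (r + 1) : ℕ) : ℝ) + 1) := by ring
      _ ≤ 20 * ((d : ℝ) + 3) ^ 2 * 2 ^ d * (3 * (Real.logb 2 (r : ℝ) + 1)) :=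
          mul_le_mul_of_nonneg_left h2 this
      _ = 60 * ((d : ℝ) + 3) ^ 2 * 2 ^ d * (Real.logb 2 (r : ℝ) + 1) := by ring
  have h6 : (0 : ℝ) ≤ ((B (d + 2) (d + 1) (Nat.clog 2 (r + 1)) + 1 : ℕ) : ℝ) := by positivity
  linarith

theorem three_le (d : ℕ) : 3 * (d + 1) ≤ 2 ^ (d + 2) := by
  induction d with
  | zero => norm_num
  | succ d ih =>
    rw [pow_succ]
    have : 3 ≤ 2 ^ (d + 2) := by
      have : 2 ^ 2 ≤ 2 ^ (d + 2) := Nat.pow_le_pow_right (by norm_num) (by omega)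
      omega
    omega

/-- **Few distinct columns.** -/
theorem few {A Y : Type} [AddCommGroup A] [Fintype A] [Fintype Y] (d m : ℕ) (hm : m ≠ 1)
    (F : A → Y → Bool)
    (hF : ∀ y y', Pol (d + 1) (fun x => bit (ZMod m) (F x y) - bit (ZMod m) (F x y'))) :
    ∃ (N : ℕ) (enc : Y → (Fin N → Bool)), (∀ y y', enc y = enc y' → ∀ x, F x y = F x y') ∧
      (N : ℝ) + 1 ≤
        bound d (Matrix.of (fun (x : A) (y : Y) => if F x y then (1 : ℝ) else 0)).rank := by
  classical
  set p := m.minFac with hp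
  have : Fact p.Prime := ⟨Nat.minFac_prime hm⟩
  have hdvd : p ∣ m := Nat.minFac_dvd m
  have hFp : ∀ y y', Pol (d + 1) (fun x => bit (ZMod p) (F x y) - bit (ZMod p) (F x y')) := by
    intro y y'
    have h := (hF y y').post (ZMod.castHom hdvd (ZMod p)).toAddMonoidHom
    have e : (fun x => (ZMod.castHom hdvd (ZMod p)).toAddMonoidHom
        (bit (ZMod m) (F x y) - bit (ZMod m) (F x y'))) =
        fun x => bit (ZMod p) (F x y) - bit (ZMod p) (F x y') := by
      funext x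
      rw [map_sub, map_bit _ (map_one (ZMod.castHom hdvd (ZMod p))),
        map_bit _ (map_one (ZMod.castHom hdvd (ZMod p)))]
    rw [e] at h
    exact h
  by_cases hc : ∀ y y', ∀ x x', bit (ZMod p) (F x y) - bit (ZMod p) (F x y') =
      bit (ZMod p) (F x' y) - bit (ZMod p) (F x' y')
  · refine ⟨1, fun y _ => F 0 y, fun y y' h x => ?_, ?_⟩
    · have h0 : F 0 y = F 0 y' := congrFun h 0
      have h1 := hc y y' x 0
      rw [h0, sub_self] at h1
      exact bit_inj (sub_eq_zero.1 h1)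
    · have := two_le_bound d (Matrix.of (fun (x : A) (y : Y) => if F x y then (1 : ℝ) else 0)).rank
      push_cast
      linarith
  · push Not at hc
    obtain ⟨y, y', x, x', hne⟩ := hc
    have hps : p ≤ 3 * (d + 1) := by
      refine small_prime p (d + 1) _ (hFp y y') (fun z => ?_) ⟨x, x', hne⟩
      cases F z y <;> cases F z y' <;> simp [bit]
    obtain ⟨enc, henc⟩ := columns p (d + 2) (hps.trans (three_le d)) (d + 1) F hFp
      (Nat.clog 2 ((Matrix.of (fun (x : A) (y : Y) => if F x y then (1 : ℝ) else 0)).rank + 1))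
      (Nat.le_pow_clog (by norm_num) _)
    refine ⟨_, enc, henc, ?_⟩
    have := cost_le d (Matrix.of (fun (x : A) (y : Y) => if F x y then (1 : ℝ) else 0)).rank
    push_cast at this
    exact this

/-- an additive map of a finite field to its prime field which preserves `1` -/
theorem exists_hom (K : Type) [Field K] [Fintype K] :
    ∃ (p : ℕ) (_ : Fact p.Prime) (φ : K →+ ZMod p), φ 1 = 1 := by
  obtain ⟨p, hp⟩ := CharP.exists K
  have hpr : Fact p.Prime := ⟨CharP.char_is_prime K p⟩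
  let _ : Algebra (ZMod p) K := ZMod.algebra K p
  have hinj : LinearMap.ker (Algebra.linearMap (ZMod p) K) = ⊥ :=
    LinearMap.ker_eq_bot.2 (algebraMap (ZMod p) K).injective
  obtain ⟨g, hg⟩ := (Algebra.linearMap (ZMod p) K).exists_leftInverse_of_injective hinj
  refine ⟨p, hpr, g.toAddMonoidHom, ?_⟩
  have h1 := LinearMap.congr_fun hg 1
  simpa using h1

/-- **Few distinct columns**, polynomials over a finite field -/
theorem few_field {A Y : Type} [AddCommGroup A] [Fintype A] [Fintype Y] (K : Type) [Field K]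
    [Fintype K] (d : ℕ) (F : A → Y → Bool)
    (hF : ∀ y y', Pol (d + 1) (fun x => bit K (F x y) - bit K (F x y'))) :
    ∃ (N : ℕ) (enc : Y → (Fin N → Bool)), (∀ y y', enc y = enc y' → ∀ x, F x y = F x y') ∧
      (N : ℝ) + 1 ≤
        bound d (Matrix.of (fun (x : A) (y : Y) => if F x y then (1 : ℝ) else 0)).rank := by
  obtain ⟨p, hp, φ, h1⟩ := exists_hom K
  refine few d p hp.out.ne_one F fun y y' => ?_
  have h := (hF y y').post φ
  have e : (fun x => φ (bit K (F x y) - bit K (F x y'))) =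
      fun x => bit (ZMod p) (F x y) - bit (ZMod p) (F x y') := by
    funext x
    rw [map_sub, map_bit _ h1, map_bit _ h1]
  rw [e] at h
  exact h

end Pool.Agent.Y405.PM
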