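import Mathlib

/-!
# Polynomial maps between abelian groups

(A version for all abelian groups of the file Pool.Agent.H161R4.Pol.)
-/

set_option autoImplicit false

namespace Pool.Agent.Y405.PM

open Finset

/-- difference -/
def D {A C : Type} [Add A] [Sub C] (a : A) (f : A → C) : A → C := fun x => f (x + a) - f x

/-- polynomial map of degree at most `d`: all `(d+1)`-fold differences vanish -/
def Pol {A C : Type} [Add A] [Sub C] : ℕ → (A → C) → Prop
  | 0, f => ∀ x y, f x = f y
  | d + 1, f => ∀ a, Pol d (D a f)

section group

variable {A C : Type} [AddCommGroup A] [AddCommGroup C]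

theorem Pol.add {d : ℕ} : ∀ {f g : A → C}, Pol d f → Pol d g → Pol d (f + g) := by
  induction d with
  | zero =>
    intro f g hf hg x y
    simp only [Pi.add_apply]
    rw [hf x y, hg x y]
  | succ d ih =>
    intro f g hf hg a
    have : D a (f + g) = D a f + D a g := by
      funext x
      simp only [D, Pi.add_apply]
      abel
    rw [this]
    exact ih (hf a) (hg a)

theorem Pol.mono {d : ℕ} : ∀ {f : A → C}, Pol d f → Pol (d + 1) f := by
  induction d with
  | zero =>
    intro f hf a x y
    simp only [D]
    rw [hf (x + a) x, hf (y + a) y, sub_self, sub_self]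
  | succ d ih =>
    intro f hf a
    exact ih (hf a)

theorem Pol.mono' {d e : ℕ} (h : d ≤ e) {f : A → C} (hf : Pol d f) : Pol e f := by
  induction h with
  | refl => exact hf
  | step _ ih => exact ih.mono

/-- composition with a homomorphism on the left -/
theorem Pol.post {C' : Type} [AddCommGroup C'] (φ : C →+ C') {d : ℕ} :
    ∀ {f : A → C}, Pol d f → Pol d (fun x => φ (f x)) := by
  induction d with
  | zero => intro f hf x y; exact congrArg φ (hf x y)
  | succ d ih =>
    intro f hf a
    have e : D a (fun x => φ (f x)) = fun x => φ (D a f x) := by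
      funext x
      simp only [D, map_sub]
    rw [e]
    exact ih (hf a)

/-- composition with a homomorphism on the right -/
theorem Pol.pre {A' : Type} [AddCommGroup A'] (φ : A' →+ A) {d : ℕ} :
    ∀ {f : A → C}, Pol d f → Pol d (fun x => f (φ x)) := by
  induction d with
  | zero => intro f hf x y; exact hf _ _
  | succ d ih =>
    intro f hf a
    have e : D a (fun x => f (φ x)) = fun x => D (φ a) f (φ x) := by
      funext x
      simp only [D, map_add]
    rw [e]
    exact ih (hf (φ a))

/-- translations -/
theorem Pol.translate {d : ℕ} (c : A) :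
    ∀ {f : A → C}, Pol d f → Pol d (fun x => f (x + c)) := by
  induction d with
  | zero => intro f hf x y; exact hf _ _
  | succ d ih =>
    intro f hf a
    have e : D a (fun x => f (x + c)) = fun x => D a f (x + c) := by
      funext x
      simp only [D]
      rw [add_right_comm]
    rw [e]
    exact ih (hf a)

theorem Pol.neg {d : ℕ} {f : A → C} (hf : Pol d f) : Pol d (-f) :=
  hf.post (AddMonoidHom.mk' (fun c : C => -c) (fun a b => by abel))

theorem Pol.sub {d : ℕ} {f g : A → C} (hf : Pol d f) (hg : Pol d g) : Pol d (f - g) := by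
  rw [sub_eq_add_neg]
  exact hf.add hg.neg

/-- the difference of two slices has smaller degree -/
theorem Pol.slice {A' : Type} [AddCommGroup A'] {d : ℕ} {f : A × A' → C} (hf : Pol (d + 1) f)
    (y y' : A') : Pol d (fun x => f (x, y) - f (x, y')) := by
  have h1 := (hf (0, y - y')).translate ((0, y') : A × A')
  have h2 := h1.pre (AddMonoidHom.inl A A')
  have e : (fun x : A => f (x, y) - f (x, y')) =
      fun x => D ((0 : A), y - y') f (AddMonoidHom.inl A A' x + (0, y')) := by
    funext x
    simp [D]
  rw [e]
  exact h2

end group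

section ring

variable {A R : Type} [AddCommGroup A] [CommRing R]

theorem Pol.const_mul {d : ℕ} (c : R) {f : A → R} (hf : Pol d f) : Pol d (fun x => c * f x) :=
  hf.post (AddMonoidHom.mulLeft c)

theorem Pol.mul : ∀ (n a b : ℕ), a + b = n → ∀ {f g : A → R}, Pol a f → Pol b g →
    Pol (a + b) (fun x => f x * g x) := by
  intro n
  induction n using Nat.strong_induction_on with
  | _ n ih =>
    intro a b hab f g hf hg
    rcases a with _ | a
    · have : (fun x => f x * g x) = fun x => f 0 * g x := by
        funext x; rw [hf x 0]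
      rw [this, zero_add]
      exact hg.const_mul _
    rcases b with _ | b
    · have : (fun x => f x * g x) = fun x => g 0 * f x := by
        funext x; rw [hg x 0, mul_comm]
      rw [this, add_zero]
      exact hf.const_mul _
    have e : a + 1 + (b + 1) = (a + b + 1) + 1 := by ring
    rw [e]
    intro c
    have h1 : D c (fun x => f x * g x) = (fun x => D c f x * g x) + ((fun x => f x * D c g x) +
        fun x => D c f x * D c g x) := by
      funext x
      simp only [D, Pi.add_apply]
      ring
    rw [h1]
    refine Pol.add ?_ (Pol.add ?_ ?_)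
    · have := ih (a + (b + 1)) (by omega) a (b + 1) rfl (hf c) hg
      rw [show a + b + 1 = a + (b + 1) by ring]
      exact this
    · have := ih (a + 1 + b) (by omega) (a + 1) b rfl hf (hg c)
      rw [show a + b + 1 = a + 1 + b by ring]
      exact this
    · have := ih (a + b) (by omega) a b rfl (hf c) (hg c)
      exact this.mono

theorem Pol.pow {d : ℕ} {f : A → R} (hf : Pol d f) (k : ℕ) :
    Pol (k * d) (fun x => f x ^ k) := by
  induction k with
  | zero =>
    rw [zero_mul]
    intro x y; simp
  | succ k ih =>
    have := Pol.mul (k * d + d) (k * d) d rfl ih hf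
    have e : (fun x => f x ^ (k + 1)) = fun x => f x ^ k * f x := by
      funext x; rw [pow_succ]
    rw [e, Nat.succ_mul]
    exact this

theorem Pol.prod {σ : Type} (s : Finset σ) (e : σ → ℕ) (f : σ → A → R)
    (hf : ∀ i, Pol (e i) (f i)) : Pol (∑ i ∈ s, e i) (fun x => ∏ i ∈ s, f i x) := by
  classical
  induction s using Finset.induction_on with
  | empty => intro x y; simp
  | insert i s hi ih =>
    have := Pol.mul _ _ _ rfl (hf i) ih
    rw [Finset.sum_insert hi]
    have e : (fun x => ∏ j ∈ insert i s, f j x) = fun x => f i x * ∏ j ∈ s, f j x := by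
      funext x; rw [Finset.prod_insert hi]
    rw [e]
    exact this

theorem Pol.sum {σ : Type} (s : Finset σ) (d : ℕ) (f : σ → A → R)
    (hf : ∀ i ∈ s, Pol d (f i)) : Pol d (fun x => ∑ i ∈ s, f i x) := by
  classical
  induction s using Finset.induction_on with
  | empty =>
    have : Pol 0 (fun _ : A => (0 : R)) := fun _ _ => rfl
    simpa using this.mono' (Nat.zero_le d)
  | insert i s hi ih =>
    have e : (fun x => ∑ j ∈ insert i s, f j x) = f i + fun x => ∑ j ∈ s, f j x := by
      funext x; rw [Finset.sum_insert hi]; rfl
    rw [e]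
    exact (hf i (Finset.mem_insert_self _ _)).add
      (ih fun j hj => hf j (Finset.mem_insert_of_mem hj))

/-- polynomials of total degree at most `d` -/
theorem pol_eval {σ : Type} (d : ℕ) (P : MvPolynomial σ R) (hP : P.totalDegree ≤ d) :
    Pol d (fun x : σ → R => MvPolynomial.eval x P) := by
  have e : (fun x : σ → R => MvPolynomial.eval x P) = fun x => ∑ m ∈ P.support,
      P.coeff m * ∏ i ∈ m.support, x i ^ m i := by
    funext x
    rw [MvPolynomial.eval_eq]
  rw [e]
  refine Pol.sum _ _ _ fun m hm => ?_
  refine Pol.const_mul _ ?_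
  have h1 : Pol (∑ i ∈ m.support, m i) (fun x : σ → R => ∏ i ∈ m.support, x i ^ m i) := by
    refine Pol.prod _ _ (fun (i : σ) (x : σ → R) => x i ^ m i) fun i => ?_
    have h2 : Pol 1 (fun x : σ → R => x i) := by
      intro a x y
      simp only [D, Pi.add_apply]
      ring
    have h3 := h2.pow (m i)
    rwa [mul_one] at h3
  refine h1.mono' ?_
  exact (MvPolynomial.le_totalDegree hm).trans hP

end ring

/-! ## Values `0`, `1`, `-1` -/

/-- iterated differences -/
theorem iter_zero {A C : Type} [AddCommGroup A] [AddCommGroup C] (a : A) :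
    ∀ (d : ℕ) (f : A → C), Pol d f → ∀ k, d < k → ∀ x, (fwdDiff a)^[k] f x = 0 := by
  intro d
  induction d with
  | zero =>
    intro f hf k hk x
    obtain ⟨k, rfl⟩ : ∃ j, k = j + 1 := ⟨k - 1, by omega⟩
    rw [Function.iterate_succ_apply]
    have h1 : fwdDiff a f = fun _ => 0 := by
      funext y
      rw [fwdDiff, hf (y + a) y, sub_self]
    rw [h1]
    clear hk h1
    induction k with
    | zero => rfl
    | succ k ih =>
      rw [Function.iterate_succ_apply]
      have h2 : fwdDiff a (fun _ : A => (0 : C)) = fun _ => 0 := by
        funext y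
        rw [fwdDiff, sub_self]
      rw [h2]
      exact ih
  | succ d ih =>
    intro f hf k hk x
    obtain ⟨k, rfl⟩ : ∃ j, k = j + 1 := ⟨k - 1, by omega⟩
    rw [Function.iterate_succ_apply]
    exact ih (fwdDiff a f) (hf a) k (by omega) x

/-- A nonconstant polynomial map of degree `n` to `ℤ / p` with values in `{0, 1, -1}` exists only
for `p ≤ 3 n`. -/
theorem small_prime {A : Type} [AddCommGroup A] (p : ℕ) [Fact p.Prime] (n : ℕ) (h : A → ZMod p)
    (hpol : Pol n h) (hval : ∀ x, h x = 0 ∨ h x = 1 ∨ h x = -1) (hnc : ∃ x y, h x ≠ h y) :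
    p ≤ 3 * n := by
  classical
  by_contra hcon
  push Not at hcon
  obtain ⟨x, y, hxy⟩ := hnc
  set a : A := y - x with ha
  set c : ℕ → ZMod p := fun k => (fwdDiff a)^[k] h x with hc
  have hc0 : ∀ k, n < k → c k = 0 := fun k hk => iter_zero a n h hpol k hk x
  have hg : ∀ t : ℕ, h (x + t • a) = ∑ k ∈ range (n + 1), (t.choose k : ZMod p) * c k := by
    intro t
    rw [shift_eq_sum_fwdDiff_iter a h t x]
    have e1 : ∑ k ∈ range (t + 1), t.choose k • (fwdDiff a)^[k] h x =
        ∑ k ∈ range (t + 1 + (n + 1)), (t.choose k : ZMod p) * c k := by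
      rw [sum_subset (range_subset_range.2 (by omega : t + 1 ≤ t + 1 + (n + 1)))]
      · refine sum_congr rfl fun k _ => ?_
        rw [nsmul_eq_mul]
      · intro k _ hk
        rw [mem_range, not_lt] at hk
        rw [Nat.choose_eq_zero_of_lt (by omega), zero_smul]
    have e2 : ∑ k ∈ range (n + 1), (t.choose k : ZMod p) * c k =
        ∑ k ∈ range (t + 1 + (n + 1)), (t.choose k : ZMod p) * c k := by
      refine sum_subset (range_subset_range.2 (by omega)) fun k _ hk => ?_
      rw [mem_range, not_lt] at hk
      rw [hc0 k (by omega), mul_zero]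
    rw [e1, e2]
  set P : Polynomial (ZMod p) := ∑ k ∈ range (n + 1),
    Polynomial.C (c k * ((k.factorial : ZMod p))⁻¹) * descPochhammer (ZMod p) k with hP
  have hdeg : P.natDegree ≤ n := by
    rw [hP]
    refine Polynomial.natDegree_sum_le_of_forall_le _ _ fun k hk => ?_
    refine (Polynomial.natDegree_C_mul_le _ _).trans ?_
    rw [descPochhammer_natDegree]
    have := mem_range.1 hk
    omega
  have heval : ∀ t : ℕ, P.eval (t : ZMod p) = h (x + t • a) := by
    intro t
    rw [hg, hP, Polynomial.eval_finsetSum]
    refine sum_congr rfl fun k hk => ?_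
    rw [Polynomial.eval_mul, Polynomial.eval_C, descPochhammer_eval_eq_descFactorial,
      Nat.descFactorial_eq_factorial_mul_choose, Nat.cast_mul]
    have hk' : k < p := by
      have := mem_range.1 hk
      omega
    have hf0 : (k.factorial : ZMod p) ≠ 0 := by
      rw [Ne, ZMod.natCast_eq_zero_iff, (Fact.out : p.Prime).dvd_factorial]
      omega
    field_simp
  have hp01 : P.eval 0 ≠ P.eval 1 := by
    have e0 := heval 0
    have e1 := heval 1
    rw [Nat.cast_zero, zero_smul, add_zero] at e0
    rw [Nat.cast_one, one_smul, ha, add_sub_cancel] at e1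
    rw [e0, e1]
    exact hxy
  have hroots : ∀ v : ZMod p, #((univ : Finset (ZMod p)).filter fun t => P.eval t = v) ≤ n := by
    intro v
    have hne : P - Polynomial.C v ≠ 0 := by
      intro h0
      apply hp01
      have e := sub_eq_zero.1 h0
      rw [e, Polynomial.eval_C, Polynomial.eval_C]
    have h1 : (univ : Finset (ZMod p)).filter (fun t => P.eval t = v) ⊆
        (P - Polynomial.C v).roots.toFinset := by
      intro t ht
      rw [Multiset.mem_toFinset, Polynomial.mem_roots hne, Polynomial.IsRoot, Polynomial.eval_sub,
        Polynomial.eval_C, (mem_filter.1 ht).2, sub_self]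
    refine (card_le_card h1).trans ((Multiset.toFinset_card_le _).trans ?_)
    refine (Polynomial.card_roots' _).trans ?_
    rw [Polynomial.natDegree_sub_C]
    exact hdeg
  have hcov : (univ : Finset (ZMod p)) ⊆ (univ.filter fun t => P.eval t = 0) ∪
      ((univ.filter fun t => P.eval t = 1) ∪ univ.filter fun t => P.eval t = -1) := by
    intro t _
    have h1 := heval t.val
    rw [ZMod.natCast_zmod_val] at h1
    simp only [mem_union, mem_filter, mem_univ, true_and]
    rw [h1]
    exact hval _
  have h2 := card_le_card hcov
  rw [card_univ, ZMod.card] at h2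
  have h3 := (card_union_le (univ.filter fun t : ZMod p => P.eval t = 0)
    ((univ.filter fun t => P.eval t = 1) ∪ univ.filter fun t => P.eval t = -1))
  have h4 := (card_union_le (univ.filter fun t : ZMod p => P.eval t = 1)
    (univ.filter fun t => P.eval t = -1))
  have h5 := hroots 0
  have h6 := hroots 1
  have h7 := hroots (-1)
  omega

end Pool.Agent.Y405.PM
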